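import Pool.Agent.LRG.StmtsC

/-!
# LRG, row CPR: the product of the roots
-/

set_option autoImplicit false

open Polynomial NumberField

namespace Pool.Agent.LRG.H64

/-- **CPR** -/
theorem cpr : CX.CprStmt := by
  intro S _ n e y x hn he h
  have h0 := congrArg (fun P : S[X] => P.eval 0) h
  simp only [chi, eval_add, eval_pow, eval_X, eval_finsetSum, eval_mul, eval_C, eval_prod,
    eval_sub, zero_sub] at h0
  rw [zero_pow hn.ne'] at h0
  simp only [ne_eq, Nat.add_eq_zero_iff, one_ne_zero, and_false, not_false_eq_true, zero_pow,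
    mul_zero, Finset.sum_const_zero, zero_add] at h0
  rw [Finset.prod_neg, Finset.card_univ, Fintype.card_fin] at h0
  rcases he with rfl | rfl <;> rcases neg_one_pow_eq_or S n with h1 | h1 <;> rw [h1] at h0
  · left
    simpa using h0.symm
  · right
    have h2 : ∏ i, x i = -(-1 * ∏ i, x i) := by ring
    rw [h2, ← h0]
    simp
  · right
    simpa using h0.symm
  · left
    have h2 : ∏ i, x i = -(-1 * ∏ i, x i) := by ring
    rw [h2, ← h0]
    simp

end Pool.Agent.LRG.H64
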