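import Pool.Agent.LRG.StmtsE

/-!
# LRG, row SUB: sums of the numbers over different sets are different
-/

set_option autoImplicit false

open Polynomial NumberField

namespace Pool.Agent.LRG.H64

open Pool.Agent.LRG.E

/-- The digits. -/
def dig (r₁ r₂ : ℕ) (a : Fin r₁ → ℤ) (b : Fin r₂ → ℤ) (k : ℕ) : ℤ :=
  if h : k < r₁ then a ⟨k, h⟩ else if h' : k - r₁ < r₂ then b ⟨k - r₁, h'⟩ else 0

theorem sum_dig (r₁ r₂ : ℕ) (a : Fin r₁ → ℤ) (b : Fin r₂ → ℤ) :
    ∑ k ∈ Finset.range (r₁ + r₂), dig r₁ r₂ a b k * 5 ^ k =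
      ∑ i : Fin r₁, a i * 5 ^ i.1 + ∑ j : Fin r₂, b j * 5 ^ (r₁ + j.1) := by
  rw [Finset.sum_range_add, Finset.sum_range, Finset.sum_range]
  congr 1
  · refine Finset.sum_congr rfl fun i _ => ?_
    have h : dig r₁ r₂ a b i.1 = a i := by
      unfold dig
      rw [dif_pos i.2]
    rw [h]
  · refine Finset.sum_congr rfl fun j _ => ?_
    have h : dig r₁ r₂ a b (r₁ + j.1) = b j := by
      unfold dig
      have h1 : ¬ (r₁ + j.1 < r₁) := by omega
      have h2 : r₁ + j.1 - r₁ = j.1 := by omega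
      have h3 : r₁ + j.1 - r₁ < r₂ := by have := j.2; omega
      rw [dif_neg h1, dif_pos h3]
      congr 1
      exact Fin.ext h2
    rw [h]

theorem abs_dig {r₁ r₂ : ℕ} {a : Fin r₁ → ℤ} {b : Fin r₂ → ℤ} (ha : ∀ i, |a i| ≤ 2)
    (hb : ∀ j, |b j| ≤ 2) (k : ℕ) : |dig r₁ r₂ a b k| ≤ 2 := by
  unfold dig
  split_ifs
  · exact ha _
  · exact hb _
  · simp

theorem of_dig (h : FivStmt) {r₁ r₂ : ℕ} {a : Fin r₁ → ℤ} {b : Fin r₂ → ℤ}
    (ha : ∀ i, |a i| ≤ 2) (hb : ∀ j, |b j| ≤ 2)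
    (hs : ∑ i : Fin r₁, a i * 5 ^ i.1 + ∑ j : Fin r₂, b j * 5 ^ (r₁ + j.1) = 0) :
    (∀ i, a i = 0) ∧ ∀ j, b j = 0 := by
  rw [← sum_dig] at hs
  have h0 := h (r₁ + r₂) (dig r₁ r₂ a b) (fun k _ => abs_dig ha hb k) hs
  refine ⟨fun i => ?_, fun j => ?_⟩
  · have h1 := h0 i.1 (by have := i.2; omega)
    unfold dig at h1
    rwa [dif_pos i.2] at h1
  · have h1 := h0 (r₁ + j.1) (by have := j.2; omega)
    unfold dig at h1
    have h2 : ¬ (r₁ + j.1 < r₁) := by omega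
    have h3 : r₁ + j.1 - r₁ < r₂ := by have := j.2; omega
    rw [dif_neg h2, dif_pos h3] at h1
    have h4 : (⟨r₁ + j.1 - r₁, h3⟩ : Fin r₂) = j := Fin.ext (by simp)
    rwa [h4] at h1

/-- **SUB** -/
theorem sub : SubStmt := by
  intro hF r₁ r₂ β hβ hre him
  have hre' : ∑ i : Fin r₁, β (Sum.inl i) * 5 ^ i.1 +
      ∑ j : Fin r₂, (β (Sum.inr (j, true)) + β (Sum.inr (j, false))) * 5 ^ (r₁ + j.1) = 0 := by
    refine Eq.trans ?_ hre
    rw [Fintype.sum_sum_type, Fintype.sum_prod_type]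
    congr 1
    refine Finset.sum_congr rfl fun j _ => ?_
    rw [Fintype.sum_bool]
    simp only [omre, ex, fac, Sum.elim_inr]
    ring
  have him' : ∑ i : Fin r₁, (0 : ℤ) * 5 ^ i.1 +
      ∑ j : Fin r₂, (β (Sum.inr (j, true)) - β (Sum.inr (j, false))) * 5 ^ (r₁ + j.1) = 0 := by
    refine Eq.trans ?_ him
    rw [Fintype.sum_sum_type, Fintype.sum_prod_type]
    congr 1
    · refine Finset.sum_congr rfl fun i _ => ?_
      simp only [omim, Sum.elim_inl]
      ring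
    · refine Finset.sum_congr rfl fun j _ => ?_
      rw [Fintype.sum_bool]
      simp only [omim, Sum.elim_inr, if_true, Bool.false_eq_true, if_false]
      ring
  have hb : ∀ o, -1 ≤ β o ∧ β o ≤ 1 := fun o => abs_le.1 (hβ o)
  obtain ⟨h1, h2⟩ := of_dig hF (fun i => (hβ _).trans (by norm_num))
    (fun j => by
      have h3 := hb (Sum.inr (j, true))
      have h4 := hb (Sum.inr (j, false))
      rw [abs_le]; constructor <;> linarith [h3.1, h3.2, h4.1, h4.2]) hre'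
  obtain ⟨-, h5⟩ := of_dig (a := fun _ : Fin r₁ => (0 : ℤ)) hF (fun i => by simp)
    (fun j => by
      have h3 := hb (Sum.inr (j, true))
      have h4 := hb (Sum.inr (j, false))
      rw [abs_le]; constructor <;> linarith [h3.1, h3.2, h4.1, h4.2]) him'
  rintro (i | ⟨j, b⟩)
  · exact h1 i
  · have h6 := h2 j
    have h7 := h5 j
    cases b
    · show β (Sum.inr (j, false)) = 0
      linarith
    · show β (Sum.inr (j, true)) = 0
      linarith

end Pool.Agent.LRG.H64
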